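import Pool.Agent.V8H93.QI.Grp

/-!
# Abelian groups: the subgroups with cyclic quotient
-/

set_option autoImplicit false
set_option linter.style.haveILetI false

namespace Pool.Agent.V8H93.QI

/-- A homomorphism to a domain is trivial on a subgroup with cyclic quotient. -/
lemma cyc_of_hom {G R : Type} [CommGroup G] [Finite G] [CommRing R] [IsDomain R] (f : G →* R) :
    ∃ H : Subgroup G, IsCyclic (G ⧸ H) ∧ ∀ h ∈ H, f h = 1 := by
  refine ⟨f.toHomUnits.ker, ?_, fun h hh => ?_⟩
  · exact isCyclic_of_injective_ringHom (R := R)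
      ((Units.coeHom R).comp (QuotientGroup.kerLift f.toHomUnits))
      (Units.val_injective.comp (QuotientGroup.kerLift_injective f.toHomUnits))
  · have h1 : f.toHomUnits h = 1 := MonoidHom.mem_ker.1 hh
    exact congrArg Units.val h1

/-- For abelian `G` the subgroups with cyclic quotient suffice. -/
theorem fixed_abelian (G : Type) [CommGroup G] [Finite G] :
    HasFixed G {H | IsCyclic (G ⧸ H)} := by
  classical
  intro V _ _ π hV
  haveI : Module.Finite ℚ (MonoidAlgebra ℚ G) := inferInstance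
  haveI : IsNoetherianRing (MonoidAlgebra ℚ G) := IsNoetherianRing.of_finite ℚ _
  haveI : Nontrivial π.asModule := hV
  obtain ⟨p, hp⟩ := associatedPrimes.nonempty (R := MonoidAlgebra ℚ G) (M := π.asModule)
  obtain ⟨hpp, x, hx⟩ := Submodule.isAssociatedPrime_iff.1 hp
  haveI := hpp
  have hmem : ∀ r : MonoidAlgebra ℚ G, r ∈ p ↔ r • x = 0 := by
    intro r
    rw [hx, Submodule.mem_colon_singleton, Submodule.mem_bot]
  have hx0 : x ≠ 0 := by
    intro h0
    apply hpp.ne_top
    rw [Ideal.eq_top_iff_one, hmem, h0, smul_zero]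
  let f : G →* (MonoidAlgebra ℚ G ⧸ p) :=
    ((Ideal.Quotient.mk p : MonoidAlgebra ℚ G →+* _) : MonoidAlgebra ℚ G →* _).comp
      (MonoidAlgebra.of ℚ G)
  have hact : ∀ g : G, MonoidAlgebra.of ℚ G g • x = π.asModuleEquiv.symm (π g
      (π.asModuleEquiv x)) := by
    intro g
    rw [Representation.asModuleEquiv_symm_map_rho, LinearEquiv.symm_apply_apply]
  have hf : ∀ g : G, f g = 1 ↔ π g (π.asModuleEquiv x) = π.asModuleEquiv x := by
    intro g
    have h1 : f g = 1 ↔ MonoidAlgebra.of ℚ G g - 1 ∈ p := by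
      have e1 : (1 : MonoidAlgebra ℚ G ⧸ p) = Ideal.Quotient.mk p 1 := (map_one _).symm
      change Ideal.Quotient.mk p (MonoidAlgebra.of ℚ G g) = 1 ↔ _
      rw [e1, Ideal.Quotient.eq]
    rw [h1, hmem, sub_smul, one_smul, sub_eq_zero, hact]
    constructor
    · intro h
      have h2 := congrArg π.asModuleEquiv h
      rwa [LinearEquiv.apply_symm_apply] at h2
    · intro h
      rw [h, LinearEquiv.symm_apply_apply]
  obtain ⟨H, hH, hH1⟩ := cyc_of_hom f
  refine ⟨H, hH, π.asModuleEquiv x, ?_, fun h hh => (hf h).1 (hH1 h hh)⟩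
  intro h0
  exact hx0 ((LinearEquiv.map_eq_zero_iff _).1 h0)

lemma cyc_sep {G : Type} [CommGroup G] {𝓗 : Set (Subgroup G)} (h : HasFixed G 𝓗)
    {K : Subgroup G} {g : G ⧸ K} (hg : ∀ x, x ∈ Subgroup.zpowers g) {F : Type} [Field F]
    [Algebra ℚ F] {z : Fˣ} (hz : orderOf g = orderOf z) : ∃ H ∈ 𝓗, H ≤ K := by
  let z' : Subgroup.zpowers z := ⟨z, Subgroup.mem_zpowers z⟩
  have hz' : ∀ x, x ∈ Subgroup.zpowers z' := by
    intro x
    obtain ⟨n, hn⟩ := Subgroup.mem_zpowers_iff.1 x.2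
    exact Subgroup.mem_zpowers_iff.2 ⟨n, Subtype.ext hn⟩
  have ho : orderOf g = orderOf z' := by rw [Subgroup.orderOf_mk, hz]
  let e : (G ⧸ K) →* Fˣ := (Subgroup.zpowers z).subtype.comp
    (mulEquivOfOrderOfEq hg hz' ho).toMonoidHom
  have he : Function.Injective e := by
    intro a b hab
    exact (mulEquivOfOrderOfEq hg hz' ho).injective (Subtype.ext hab)
  let π : Representation ℚ G F :=
    { toFun := fun x => LinearMap.mulLeft ℚ ((e (x : G ⧸ K) : Fˣ) : F)
      map_one' := by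
        rw [QuotientGroup.mk_one, map_one, Units.val_one, LinearMap.mulLeft_one]
        rfl
      map_mul' := fun x y => by
        rw [QuotientGroup.mk_mul, map_mul, Units.val_mul, LinearMap.mulLeft_mul]
        rfl }
  obtain ⟨H, hH, v, hv, hfix⟩ := h F π inferInstance
  refine ⟨H, hH, fun x hx => ?_⟩
  have h1 : ((e (x : G ⧸ K) : Fˣ) : F) * v = v := hfix x hx
  have h2 : ((e (x : G ⧸ K) : Fˣ) : F) = 1 := mul_right_cancel₀ hv (by rw [h1, one_mul])
  have h3 : e (x : G ⧸ K) = 1 := Units.ext h2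
  rw [← QuotientGroup.eq_one_iff]
  exact he (by rw [h3, map_one])

/-- The criterion for abelian groups. -/
theorem abelian_iff (G : Type) [CommGroup G] [Finite G] (𝓗 : Set (Subgroup G)) :
    HasFixed G 𝓗 ↔ ∀ K : Subgroup G, IsCyclic (G ⧸ K) → ∃ H ∈ 𝓗, H ≤ K := by
  constructor
  · intro h K hK
    obtain ⟨g, hg⟩ := hK
    have hn : (orderOf g) ≠ 0 := (orderOf_pos g).ne'
    have hζ := Complex.isPrimitiveRoot_exp (orderOf g) hn
    obtain ⟨z, hz⟩ := hζ.isUnit hn
    refine cyc_sep h (g := g) hg (z := z) ?_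
    rw [← orderOf_units, hz]
    exact hζ.eq_orderOf
  · intro h V _ _ π hV
    obtain ⟨K, hK, v, hv, hf⟩ := fixed_abelian G V π hV
    obtain ⟨H, hH, hle⟩ := h K hK
    exact ⟨H, hH, v, hv, fun h hh => hf h (hle hh)⟩

end Pool.Agent.V8H93.QI
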