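import Pool.Agent.V8H93.QI.Cat

/-!
# The fixed-point-free part
-/

set_option autoImplicit false
set_option linter.style.haveILetI false
set_option linter.unusedSectionVars false

open CategoryTheory Limits

namespace Pool.Agent.V8H93.QI

universe v u

section

variable {G : Type} [Group G] [Fintype G]

lemma idl_mul' (𝓗 : Set (Subgroup G)) (g : G) : ∀ x ∈ idl 𝓗,
    x * MonoidAlgebra.of ℚ G g ∈ idl 𝓗 := by
  intro x hx
  induction hx using Submodule.span_induction with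
  | mem x hx =>
    obtain ⟨H, hH, a, b, rfl⟩ := hx
    refine Submodule.subset_span ⟨H, hH, a, b * g, ?_⟩
    rw [map_mul]
    simp only [mul_assoc]
  | zero =>
    rw [zero_mul]
    exact zero_mem _
  | add x y _ _ hx hy =>
    rw [add_mul]
    exact add_mem hx hy
  | smul c x _ hx =>
    rw [smul_mul_assoc]
    exact Submodule.smul_mem _ _ hx

lemma idl_left (𝓗 : Set (Subgroup G)) {x : MonoidAlgebra ℚ G} (hx : x ∈ idl 𝓗)
    (a : MonoidAlgebra ℚ G) : a * x ∈ idl 𝓗 := by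
  induction a using MonoidAlgebra.induction_on with
  | of g => exact idl_mul 𝓗 g x hx
  | add a b ha hb =>
    rw [add_mul]
    exact add_mem ha hb
  | smul c a ha =>
    rw [smul_mul_assoc]
    exact Submodule.smul_mem _ _ ha

lemma idl_right (𝓗 : Set (Subgroup G)) {x : MonoidAlgebra ℚ G} (hx : x ∈ idl 𝓗)
    (a : MonoidAlgebra ℚ G) : x * a ∈ idl 𝓗 := by
  induction a using MonoidAlgebra.induction_on with
  | of g => exact idl_mul' 𝓗 g x hx
  | add a b ha hb =>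
    rw [mul_add]
    exact add_mem ha hb
  | smul c a ha =>
    rw [mul_smul_comm]
    exact Submodule.smul_mem _ _ ha

/-- the ideal as a left ideal -/
noncomputable def idlL (𝓗 : Set (Subgroup G)) :
    Submodule (MonoidAlgebra ℚ G) (MonoidAlgebra ℚ G) where
  carrier := (idl 𝓗 : Set (MonoidAlgebra ℚ G))
  add_mem' := fun ha hb => (idl 𝓗).add_mem ha hb
  zero_mem' := (idl 𝓗).zero_mem
  smul_mem' := fun a _ hx => idl_left 𝓗 hx a

lemma mem_idlL (𝓗 : Set (Subgroup G)) (x : MonoidAlgebra ℚ G) : x ∈ idlL 𝓗 ↔ x ∈ idl 𝓗 := Iff.rfl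

/-- The idempotent of the fixed-point-free part. -/
lemma exists_fpf (𝓗 : Set (Subgroup G)) : ∃ c : MonoidAlgebra ℚ G, c * c = c ∧
    1 - c ∈ idl 𝓗 ∧ ∀ x ∈ idl 𝓗, x * c = 0 := by
  haveI : NeZero (Nat.card G : ℚ) := ⟨by exact_mod_cast Nat.card_pos.ne'⟩
  obtain ⟨q, hq⟩ := MonoidAlgebra.Submodule.exists_isCompl (k := ℚ) (G := G) (idlL 𝓗)
  have h1 : (1 : MonoidAlgebra ℚ G) ∈ idlL 𝓗 ⊔ q := by
    rw [hq.sup_eq_top]
    trivial
  obtain ⟨e, he, c, hc, hec⟩ := Submodule.mem_sup.1 h1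
  have he' : e ∈ idl 𝓗 := (mem_idlL 𝓗 e).1 he
  have h2 : ∀ x ∈ idl 𝓗, x * c = 0 := by
    intro x hx
    have h3 : x * c ∈ idlL 𝓗 := (mem_idlL 𝓗 _).2 (idl_right 𝓗 hx c)
    have h4 : x * c ∈ q := q.smul_mem x hc
    have h5 : x * c ∈ idlL 𝓗 ⊓ q := ⟨h3, h4⟩
    rw [hq.inf_eq_bot, Submodule.mem_bot] at h5
    exact h5
  have h3 : e = 1 - c := by rw [← hec, add_sub_cancel_right]
  refine ⟨c, ?_, by rwa [← h3], h2⟩
  have h4 := h2 e he'
  rw [h3, sub_mul, one_mul, sub_eq_zero] at h4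
  exact h4.symm

lemma nrm_mem {𝓗 : Set (Subgroup G)} {H : Subgroup G} (hH : H ∈ 𝓗) : nrm H ∈ idl 𝓗 := by
  have h1 := nrm_mul_mem 𝓗 hH 1
  rwa [mul_one] at h1

lemma fpf_zero_iff {𝓗 : Set (Subgroup G)} {c : MonoidAlgebra ℚ G} (h1 : 1 - c ∈ idl 𝓗)
    (h2 : ∀ x ∈ idl 𝓗, x * c = 0) : c = 0 ↔ HasFixed G 𝓗 := by
  constructor
  · intro hc
    by_contra hcon
    apply idl_ne_top hcon
    rw [eq_top_iff]
    intro x _
    rw [hc, sub_zero] at h1
    have h3 := idl_right 𝓗 h1 x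
    rwa [one_mul] at h3
  · intro h
    have h3 := h2 1 (by rw [idl_top h]; trivial)
    rwa [one_mul] at h3

end

section

variable {C : Type u} [Category.{v} C] [Preadditive C] [Linear ℚ C] {G : Type} [Group G] [Fintype G]

/-- **Splitting.** -/
theorem splitting [HasBinaryBiproducts C] [IsIdempotentComplete C] {Pr : C → Prop}
    (hPr : Closed Pr) {𝓗 : Set (Subgroup G)} {c : MonoidAlgebra ℚ G} (hcc : c * c = c)
    (h1 : 1 - c ∈ idl 𝓗) {M : C} (ρ : G →* End M)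
    (h : ∀ H ∈ 𝓗, ∀ P, IsInv ρ H P → Pr P)
    (h' : ∀ (P : C) (i : P ⟶ M) (r : M ⟶ P), i ≫ r = 𝟙 P →
      r ≫ i = (MonoidAlgebra.lift ℚ (End M) G ρ c : M ⟶ M) → Pr P) : Pr M := by
  obtain ⟨B, u, w, hB, huw⟩ := factor hPr ρ h _ h1
  have h2 : (MonoidAlgebra.lift ℚ (End M) G ρ c : M ⟶ M) ≫
      (MonoidAlgebra.lift ℚ (End M) G ρ c : M ⟶ M) = MonoidAlgebra.lift ℚ (End M) G ρ c := by
    have h3 : MonoidAlgebra.lift ℚ (End M) G ρ c * MonoidAlgebra.lift ℚ (End M) G ρ c =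
        MonoidAlgebra.lift ℚ (End M) G ρ c := by rw [← map_mul, hcc]
    exact h3
  obtain ⟨P, i, r, hir, hri⟩ := IsIdempotentComplete.idempotents_split M _ h2
  have hP := h' P i r hir hri
  refine hPr.summand (B ⊞ P) M (biprod.lift u r) (biprod.desc w i) ?_ (hPr.sum _ _ hB hP)
  rw [biprod.lift_desc, huw, hri, map_sub, map_one]
  exact sub_add_cancel _ _

end

end Pool.Agent.V8H93.QI
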