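import Pool.Agent.V8H93.QI.Grp

/-!
# All finite groups
-/

set_option autoImplicit false
set_option linter.style.haveILetI false

namespace Pool.Agent.V8H93.QI

/-- In `W` every subgroup whose elements other than the identity have prime order is cyclic; in
particular, all subgroups of order `p q`, `p` and `q` primes, are cyclic. -/
def PQ (W : Type) [Group W] : Prop :=
  ∀ K : Subgroup W, (∀ k ∈ K, k ≠ 1 → (orderOf k).Prime) → IsCyclic K

/-- the quotient `N_G(H) / H` -/
abbrev Weyl {G : Type} [Group G] (H : Subgroup G) : Type :=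
  Subgroup.normalizer (H : Set G) ⧸ H.subgroupOf (Subgroup.normalizer (H : Set G))

theorem fixed_general (G : Type) [Group G] [Finite G] : HasFixed G {H | PQ (Weyl H)} := by
  classical
  intro V _ _ π hV
  let fam : Set (Subgroup G) := {H | ∃ v : V, v ≠ 0 ∧ ∀ h ∈ H, π h v = v}
  have hbot : (⊥ : Subgroup G) ∈ fam := by
    obtain ⟨v, hv⟩ := exists_ne (0 : V)
    refine ⟨v, hv, fun h hh => ?_⟩
    rw [Subgroup.mem_bot] at hh
    rw [hh, map_one, Module.End.one_apply]
  haveI : Finite (Subgroup G) := inferInstance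
  obtain ⟨H, hH⟩ := (Set.toFinite fam).exists_maximal ⟨_, hbot⟩
  obtain ⟨v, hv, hvf⟩ := hH.prop
  refine ⟨H, ?_, v, hv, hvf⟩
  intro K hK
  by_contra hc
  let N : Subgroup G := Subgroup.normalizer (H : Set G)
  let S : Subgroup N := H.subgroupOf N
  let σ := Representation.quotientToInvariants (π.comp N.subtype) S
  have hHN : H ≤ N := Subgroup.le_normalizer
  have hvS : v ∈ Representation.invariants ((π.comp N.subtype).comp S.subtype) := by
    rw [Representation.mem_invariants]
    rintro ⟨⟨x, hx⟩, hxS⟩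
    exact hvf x (Subgroup.mem_subgroupOf.1 hxS)
  haveI : Nontrivial (Representation.invariants ((π.comp N.subtype).comp S.subtype)) :=
    ⟨⟨v, hvS⟩, 0, fun h => hv (congrArg Subtype.val h)⟩
  obtain ⟨L, hL, w, hw, hwf⟩ := fixed_partition K hc (fun k hk => by
    have h1 := hK k k.2 (fun h => hk (Subtype.ext h))
    rwa [Subgroup.orderOf_coe] at h1) _ (σ.comp K.subtype) inferInstance
  let L' : Subgroup G := ((L.map K.subtype).comap (QuotientGroup.mk' S)).map N.subtype
  have hL' : ∀ g ∈ L', π g (w : V) = w := by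
    rintro _ ⟨n, hn, rfl⟩
    obtain ⟨l, hl, hln⟩ := hn
    have h1 := hwf l hl
    have h2 : (σ.comp K.subtype) l w = σ (QuotientGroup.mk' S n) w := by
      rw [← hln]
      rfl
    rw [h2] at h1
    exact congrArg Subtype.val h1
  have hmem : L' ∈ fam := ⟨(w : V), fun h => hw (Subtype.ext h), hL'⟩
  have hle : H ≤ L' := by
    intro h hh
    refine ⟨⟨h, hHN hh⟩, ?_, rfl⟩
    have h1 : QuotientGroup.mk' S ⟨h, hHN hh⟩ = 1 := by
      rw [QuotientGroup.mk'_apply, QuotientGroup.eq_one_iff]
      exact Subgroup.mem_subgroupOf.2 hh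
    rw [SetLike.mem_coe, Subgroup.mem_comap, h1]
    exact one_mem _
  have hge := hH.le_of_ge hmem hle
  -- an element of `L` other than the identity
  have hnt : ∃ l ∈ L, l ≠ 1 := by
    by_contra hall
    push Not at hall
    have h1 : L = ⊥ := (Subgroup.eq_bot_iff_forall L).2 hall
    rw [h1, Set.mem_ofPred_eq, Subgroup.card_bot] at hL
    exact Nat.not_prime_one hL
  obtain ⟨l, hl, hl1⟩ := hnt
  obtain ⟨n, hn⟩ := QuotientGroup.mk'_surjective S (l : N ⧸ S)
  have h1 : (n : G) ∈ L' := by
    refine ⟨n, ?_, rfl⟩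
    rw [SetLike.mem_coe, Subgroup.mem_comap, hn]
    exact ⟨l, hl, rfl⟩
  have h2 : QuotientGroup.mk' S n = 1 := by
    rw [QuotientGroup.mk'_apply, QuotientGroup.eq_one_iff]
    exact Subgroup.mem_subgroupOf.2 (hge h1)
  apply hl1
  apply Subtype.ext
  rw [← hn, h2]
  rfl

end Pool.Agent.V8H93.QI
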