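import Pool.Agent.V8H93.QI.Grp

/-!
# Descent of properties of objects to the invariants of subgroups
-/

set_option autoImplicit false
set_option linter.style.haveILetI false
set_option linter.unusedSectionVars false

open CategoryTheory Limits

namespace Pool.Agent.V8H93.QI

universe v u

/-! ### The group algebra -/

section

variable {G : Type} [Group G] [Fintype G]

open Classical in
/-- the sum of the elements of `H` -/
noncomputable def nrm (H : Subgroup G) : MonoidAlgebra ℚ G :=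
  ∑ h ∈ Finset.univ.filter (· ∈ H), MonoidAlgebra.of ℚ G h

/-- the two-sided ideal generated by the `nrm H`, as a subspace -/
noncomputable def idl (𝓗 : Set (Subgroup G)) : Submodule ℚ (MonoidAlgebra ℚ G) :=
  Submodule.span ℚ {x | ∃ H ∈ 𝓗, ∃ a b : G,
    x = MonoidAlgebra.of ℚ G a * nrm H * MonoidAlgebra.of ℚ G b}

lemma idl_mul (𝓗 : Set (Subgroup G)) (g : G) : ∀ x ∈ idl 𝓗,
    MonoidAlgebra.of ℚ G g * x ∈ idl 𝓗 := by
  intro x hx
  induction hx using Submodule.span_induction with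
  | mem x hx =>
    obtain ⟨H, hH, a, b, rfl⟩ := hx
    refine Submodule.subset_span ⟨H, hH, g * a, b, ?_⟩
    rw [map_mul]
    simp only [mul_assoc]
  | zero =>
    rw [mul_zero]
    exact zero_mem _
  | add x y _ _ hx hy =>
    rw [mul_add]
    exact add_mem hx hy
  | smul c x _ hx =>
    rw [mul_smul_comm]
    exact Submodule.smul_mem _ _ hx

lemma nrm_mul_mem (𝓗 : Set (Subgroup G)) {H : Subgroup G} (hH : H ∈ 𝓗) (x : MonoidAlgebra ℚ G) :
    nrm H * x ∈ idl 𝓗 := by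
  induction x using MonoidAlgebra.induction_on with
  | of g =>
    refine Submodule.subset_span ⟨H, hH, 1, g, ?_⟩
    rw [map_one, one_mul]
  | add x y hx hy =>
    rw [mul_add]
    exact add_mem hx hy
  | smul c x hx =>
    rw [mul_smul_comm]
    exact Submodule.smul_mem _ _ hx

lemma idl_le (𝓗 : Set (Subgroup G)) (g : G) :
    idl 𝓗 ≤ (idl 𝓗).comap (LinearMap.mulLeft ℚ (MonoidAlgebra.of ℚ G g)) :=
  fun x hx => Submodule.mem_comap.2 (idl_mul 𝓗 g x hx)

/-- multiplication on the quotient -/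
noncomputable def quoL (𝓗 : Set (Subgroup G)) (g : G) :
    (MonoidAlgebra ℚ G ⧸ idl 𝓗) →ₗ[ℚ] (MonoidAlgebra ℚ G ⧸ idl 𝓗) :=
  (idl 𝓗).mapQ (idl 𝓗) (LinearMap.mulLeft ℚ (MonoidAlgebra.of ℚ G g)) (idl_le 𝓗 g)

lemma quoL_mk (𝓗 : Set (Subgroup G)) (g : G) (x : MonoidAlgebra ℚ G) :
    quoL 𝓗 g (Submodule.Quotient.mk x) = Submodule.Quotient.mk (MonoidAlgebra.of ℚ G g * x) := rfl

/-- the left regular action on the quotient -/
noncomputable def quo (𝓗 : Set (Subgroup G)) :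
    Representation ℚ G (MonoidAlgebra ℚ G ⧸ idl 𝓗) where
  toFun g := quoL 𝓗 g
  map_one' := by
    refine LinearMap.ext fun x => ?_
    obtain ⟨x, rfl⟩ := Submodule.Quotient.mk_surjective _ x
    rw [quoL_mk, map_one, one_mul]
    rfl
  map_mul' g g' := by
    refine LinearMap.ext fun x => ?_
    obtain ⟨x, rfl⟩ := Submodule.Quotient.mk_surjective _ x
    rw [Module.End.mul_apply, quoL_mk, quoL_mk, quoL_mk, map_mul, mul_assoc]

lemma quo_mk (𝓗 : Set (Subgroup G)) (g : G) (x : MonoidAlgebra ℚ G) :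
    quo 𝓗 g (Submodule.Quotient.mk x) = Submodule.Quotient.mk (MonoidAlgebra.of ℚ G g * x) := rfl

open Classical in
lemma quo_sum (𝓗 : Set (Subgroup G)) {H : Subgroup G} (hH : H ∈ 𝓗)
    (v : MonoidAlgebra ℚ G ⧸ idl 𝓗) :
    ∑ h ∈ Finset.univ.filter (· ∈ H), quo 𝓗 h v = 0 := by
  obtain ⟨x, rfl⟩ := Submodule.Quotient.mk_surjective _ v
  have h1 : ∑ h ∈ Finset.univ.filter (· ∈ H), quo 𝓗 h (Submodule.Quotient.mk x) =
      Submodule.Quotient.mk (p := idl 𝓗) (nrm H * x) := by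
    simp only [quo_mk]
    unfold nrm
    rw [Finset.sum_mul]
    exact (map_sum (Submodule.mkQ (idl 𝓗)) _ _).symm
  rw [h1, Submodule.Quotient.mk_eq_zero]
  exact nrm_mul_mem 𝓗 hH x

/-- If all modules have fixed vectors, the ideal is everything. -/
lemma idl_top {𝓗 : Set (Subgroup G)} (h : HasFixed G 𝓗) : idl 𝓗 = ⊤ := by
  classical
  by_contra hcon
  haveI : Nontrivial (MonoidAlgebra ℚ G ⧸ idl 𝓗) :=
    Submodule.Quotient.nontrivial_iff.2 hcon
  obtain ⟨H, hH, v, hv, hf⟩ := h _ (quo 𝓗) inferInstance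
  apply hv
  have h1 := quo_sum 𝓗 hH v
  have h2 : ∑ h ∈ Finset.univ.filter (· ∈ H), quo 𝓗 h v =
      ∑ _h ∈ Finset.univ.filter (· ∈ H), v := by
    refine Finset.sum_congr rfl (fun h hh => hf h ?_)
    exact (Finset.mem_filter.1 hh).2
  rw [h2, Finset.sum_const, ← Nat.cast_smul_eq_nsmul ℚ] at h1
  refine (smul_eq_zero.1 h1).resolve_left ?_
  have h3 : (1 : G) ∈ Finset.univ.filter (· ∈ H) := by simp [one_mem]
  exact_mod_cast (Finset.card_pos.2 ⟨_, h3⟩).ne'

/-- Conversely. -/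
lemma idl_ne_top {𝓗 : Set (Subgroup G)} (h : ¬ HasFixed G 𝓗) : idl 𝓗 ≠ ⊤ := by
  classical
  intro htop
  apply h
  intro V _ _ π hV
  by_contra hcon
  push Not at hcon
  have h1 : ∀ x ∈ idl 𝓗, π.asAlgebraHom x = 0 := by
    intro x hx
    induction hx using Submodule.span_induction with
    | mem x hx =>
      obtain ⟨H, hH, a, b, rfl⟩ := hx
      have h2 : π.asAlgebraHom (nrm H) = 0 := by
        refine LinearMap.ext fun v => ?_
        by_contra hne
        obtain ⟨y, hy, hf⟩ := hcon H hH _ hne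
        apply hf
        rw [← π.asAlgebraHom_of y, ← Module.End.mul_apply, ← map_mul]
        congr 2
        unfold nrm
        rw [Finset.mul_sum]
        refine Finset.sum_bij (fun x _ => y * x) ?_ ?_ ?_ ?_
        · intro x hx
          rw [Finset.mem_filter] at hx ⊢
          exact ⟨Finset.mem_univ _, mul_mem hy hx.2⟩
        · intro x _ x' _ hxx
          exact mul_left_cancel hxx
        · intro x hx
          rw [Finset.mem_filter] at hx
          refine ⟨y⁻¹ * x, ?_, by group⟩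
          rw [Finset.mem_filter]
          exact ⟨Finset.mem_univ _, mul_mem (inv_mem hy) hx.2⟩
        · intro x _
          rw [map_mul]
      rw [map_mul, map_mul, h2, mul_zero, zero_mul]
    | zero => exact map_zero _
    | add x y _ _ hx hy => rw [map_add, hx, hy, add_zero]
    | smul c x _ hx => rw [map_smul, hx, smul_zero]
  have h2 := h1 1 (by rw [htop]; trivial)
  rw [map_one] at h2
  obtain ⟨v, hv⟩ := exists_ne (0 : V)
  apply hv
  have h3 := congrArg (fun f : Module.End ℚ V => f v) h2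
  exact h3

end

/-! ### Categories -/

section

variable {C : Type u} [Category.{v} C] [Preadditive C] [Linear ℚ C]

open Classical in
/-- `P` is the direct summand `M ^ H` of `M`, the image of the mean of the `ρ h`, `h ∈ H`. -/
def IsInv {G : Type} [Group G] [Fintype G] {M : C} (ρ : G →* End M) (H : Subgroup G) (P : C) :
    Prop :=
  ∃ (i : P ⟶ M) (r : M ⟶ P), i ≫ r = 𝟙 P ∧
    r ≫ i = (Nat.card H : ℚ)⁻¹ • ∑ h ∈ Finset.univ.filter (· ∈ H), (ρ h : M ⟶ M)

/-- The class `Pr` of objects contains the zero objects and is closed under direct sums and direct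
summands. -/
structure Closed [HasBinaryBiproducts C] (Pr : C → Prop) : Prop where
  zero : ∀ M : C, 𝟙 M = 0 → Pr M
  sum : ∀ M N : C, Pr M → Pr N → Pr (M ⊞ N)
  summand : ∀ (M P : C) (i : P ⟶ M) (r : M ⟶ P), i ≫ r = 𝟙 P → Pr M → Pr P

variable {G : Type} [Group G] [Fintype G]

open Classical in
lemma nrm_sq {M : C} (ρ : G →* End M) (H : Subgroup G) :
    (∑ h ∈ Finset.univ.filter (· ∈ H), (ρ h : M ⟶ M)) ≫
      (∑ h ∈ Finset.univ.filter (· ∈ H), (ρ h : M ⟶ M)) =
    (Nat.card H : ℚ) • ∑ h ∈ Finset.univ.filter (· ∈ H), (ρ h : M ⟶ M) := by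
  rw [Preadditive.sum_comp]
  have h1 : ∀ x ∈ Finset.univ.filter (· ∈ H), (ρ x : M ⟶ M) ≫
      (∑ h ∈ Finset.univ.filter (· ∈ H), (ρ h : M ⟶ M)) =
      ∑ h ∈ Finset.univ.filter (· ∈ H), (ρ h : M ⟶ M) := by
    intro x hx
    rw [Finset.mem_filter] at hx
    rw [Preadditive.comp_sum]
    refine Finset.sum_bij (fun y _ => y * x) ?_ ?_ ?_ ?_
    · intro y hy
      rw [Finset.mem_filter] at hy ⊢
      exact ⟨Finset.mem_univ _, mul_mem hy.2 hx.2⟩
    · intro y _ y' _ hyy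
      exact mul_right_cancel hyy
    · intro y hy
      rw [Finset.mem_filter] at hy
      refine ⟨y * x⁻¹, ?_, by group⟩
      rw [Finset.mem_filter]
      exact ⟨Finset.mem_univ _, mul_mem hy.2 (inv_mem hx.2)⟩
    · intro y _
      rw [map_mul]
      rfl
  rw [Finset.sum_congr rfl h1, Finset.sum_const, ← Nat.cast_smul_eq_nsmul ℚ]
  congr 2
  rw [Nat.card_eq_fintype_card, Fintype.card_subtype]

lemma card_ne (H : Subgroup G) : (Nat.card H : ℚ) ≠ 0 := by
  exact_mod_cast Nat.card_pos.ne'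

/-- The invariants exist. -/
lemma exists_inv [IsIdempotentComplete C] {M : C} (ρ : G →* End M) (H : Subgroup G) :
    ∃ P, IsInv ρ H P := by
  classical
  have h1 : ((Nat.card H : ℚ)⁻¹ • ∑ h ∈ Finset.univ.filter (· ∈ H), (ρ h : M ⟶ M)) ≫
      ((Nat.card H : ℚ)⁻¹ • ∑ h ∈ Finset.univ.filter (· ∈ H), (ρ h : M ⟶ M)) =
      (Nat.card H : ℚ)⁻¹ • ∑ h ∈ Finset.univ.filter (· ∈ H), (ρ h : M ⟶ M) := by
    rw [Linear.smul_comp, Linear.comp_smul, nrm_sq, smul_smul (Nat.card H : ℚ)⁻¹ (Nat.card H : ℚ),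
      inv_mul_cancel₀ (card_ne H), one_smul]
  obtain ⟨P, i, r, hir, hri⟩ := IsIdempotentComplete.idempotents_split M _ h1
  exact ⟨P, i, r, hir, hri⟩

lemma lift_of {M : C} (ρ : G →* End M) (g : G) :
    MonoidAlgebra.lift ℚ (End M) G ρ (MonoidAlgebra.of ℚ G g) = ρ g := by
  simp

/-- The elements of the ideal factor through an object of the class. -/
lemma factor [HasBinaryBiproducts C] [IsIdempotentComplete C] {Pr : C → Prop} (hPr : Closed Pr)
    {M : C} (ρ : G →* End M) {𝓗 : Set (Subgroup G)}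
    (h : ∀ H ∈ 𝓗, ∀ P, IsInv ρ H P → Pr P) : ∀ x ∈ idl 𝓗, ∃ (B : C) (u : M ⟶ B) (w : B ⟶ M),
      Pr B ∧ u ≫ w = (MonoidAlgebra.lift ℚ (End M) G ρ x : M ⟶ M) := by
  classical
  intro x hx
  induction hx using Submodule.span_induction with
  | mem x hx =>
    obtain ⟨H, hH, a, b, rfl⟩ := hx
    obtain ⟨P, i, r, hir, hri⟩ := exists_inv ρ H
    refine ⟨P, (ρ b : M ⟶ M) ≫ r, (Nat.card H : ℚ) • (i ≫ (ρ a : M ⟶ M)),
      h H hH P ⟨i, r, hir, hri⟩, ?_⟩
    have e1 : MonoidAlgebra.lift ℚ (End M) G ρ (nrm H) =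
        ((∑ h ∈ Finset.univ.filter (· ∈ H), (ρ h : M ⟶ M) : M ⟶ M) : End M) := by
      unfold nrm
      rw [map_sum]
      exact Finset.sum_congr rfl (fun h _ => lift_of ρ h)
    rw [map_mul, map_mul, lift_of, lift_of, e1]
    change _ = (ρ b : M ⟶ M) ≫ (∑ h ∈ Finset.univ.filter (· ∈ H), (ρ h : M ⟶ M)) ≫ (ρ a : M ⟶ M)
    have e2 : ∑ h ∈ Finset.univ.filter (· ∈ H), (ρ h : M ⟶ M) = (Nat.card H : ℚ) • (r ≫ i) := by
      rw [hri, smul_smul, mul_inv_cancel₀ (card_ne H), one_smul]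
    rw [e2]
    simp only [Linear.smul_comp, Linear.comp_smul, Category.assoc]
  | zero =>
    obtain ⟨Z, i, r, hir, hri⟩ := IsIdempotentComplete.idempotents_split M 0 (by simp)
    have hZ : 𝟙 Z = 0 := by
      calc 𝟙 Z = (i ≫ r) ≫ (i ≫ r) := by rw [hir, Category.comp_id]
        _ = i ≫ (r ≫ i) ≫ r := by simp only [Category.assoc]
        _ = 0 := by rw [hri, zero_comp, comp_zero]
    refine ⟨Z, 0, 0, hPr.zero Z hZ, ?_⟩
    rw [map_zero, zero_comp]
  | add x y _ _ hx hy =>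
    obtain ⟨B, u, w, hB, huw⟩ := hx
    obtain ⟨B', u', w', hB', huw'⟩ := hy
    refine ⟨B ⊞ B', biprod.lift u u', biprod.desc w w', hPr.sum _ _ hB hB', ?_⟩
    rw [biprod.lift_desc, huw, huw', map_add]
  | smul c x _ hx =>
    obtain ⟨B, u, w, hB, huw⟩ := hx
    refine ⟨B, u, c • w, hB, ?_⟩
    rw [Linear.comp_smul, huw, map_smul]

/-- **Descent.** -/
theorem descent [HasBinaryBiproducts C] [IsIdempotentComplete C] {Pr : C → Prop} (hPr : Closed Pr)
    {𝓗 : Set (Subgroup G)} (hG : HasFixed G 𝓗) {M : C} (ρ : G →* End M)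
    (h : ∀ H ∈ 𝓗, ∀ P, IsInv ρ H P → Pr P) : Pr M := by
  obtain ⟨B, u, w, hB, huw⟩ := factor hPr ρ h 1 (by rw [idl_top hG]; trivial)
  rw [map_one] at huw
  exact hPr.summand B M u w huw hB

/-! ### Sharpness -/

/-- Matrices as endomorphisms of a direct sum of copies of `M₀`. -/
noncomputable def mx [HasFiniteBiproducts C] (M₀ : C) {d : ℕ} (A : Matrix (Fin d) (Fin d) ℚ) :
    (⨁ fun _ : Fin d => M₀) ⟶ (⨁ fun _ : Fin d => M₀) :=
  ∑ i, ∑ j, A i j • (biproduct.π (fun _ : Fin d => M₀) j ≫ biproduct.ι (fun _ : Fin d => M₀) i)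

lemma ι_mx_π [HasFiniteBiproducts C] (M₀ : C) {d : ℕ} (A : Matrix (Fin d) (Fin d) ℚ)
    (a b : Fin d) : biproduct.ι (fun _ : Fin d => M₀) a ≫ mx M₀ A ≫
      biproduct.π (fun _ : Fin d => M₀) b = A b a • 𝟙 M₀ := by
  classical
  unfold mx
  simp only [Preadditive.sum_comp, Preadditive.comp_sum, Linear.smul_comp, Linear.comp_smul,
    Category.assoc]
  rw [Finset.sum_eq_single b, Finset.sum_eq_single a]
  · rw [biproduct.ι_π_self_assoc, biproduct.ι_π_self]
  · intro j _ hj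
    rw [biproduct.ι_π_ne_assoc _ (Ne.symm hj), zero_comp, smul_zero]
  · intro h
    exact absurd (Finset.mem_univ _) h
  · intro i _ hi
    refine Finset.sum_eq_zero (fun j _ => ?_)
    rw [biproduct.ι_π_ne _ hi, comp_zero, comp_zero, smul_zero]
  · intro h
    exact absurd (Finset.mem_univ _) h

lemma mx_mul [HasFiniteBiproducts C] (M₀ : C) {d : ℕ} (A B : Matrix (Fin d) (Fin d) ℚ) :
    mx M₀ (A * B) = mx M₀ B ≫ mx M₀ A := by
  classical
  refine biproduct.hom_ext' _ _ (fun a => biproduct.hom_ext _ _ (fun b => ?_))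
  rw [Category.assoc, Category.assoc, Category.assoc, ι_mx_π, Matrix.mul_apply]
  have h1 : biproduct.ι (fun _ : Fin d => M₀) a ≫ mx M₀ B ≫ mx M₀ A ≫
      biproduct.π (fun _ : Fin d => M₀) b =
      ∑ k, (biproduct.ι (fun _ : Fin d => M₀) a ≫ mx M₀ B ≫ biproduct.π (fun _ : Fin d => M₀) k) ≫
        (biproduct.ι (fun _ : Fin d => M₀) k ≫ mx M₀ A ≫ biproduct.π (fun _ : Fin d => M₀) b) := by
    have h2 : mx M₀ B ≫ mx M₀ A = mx M₀ B ≫ (∑ k, biproduct.π (fun _ : Fin d => M₀) k ≫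
        biproduct.ι (fun _ : Fin d => M₀) k) ≫ mx M₀ A := by
      rw [biproduct.total, Category.id_comp]
    rw [← Category.assoc (mx M₀ B), h2]
    simp only [Preadditive.sum_comp, Preadditive.comp_sum, Category.assoc]
  rw [h1, Finset.sum_smul]
  refine Finset.sum_congr rfl (fun k _ => ?_)
  rw [ι_mx_π, ι_mx_π, Linear.smul_comp, Linear.comp_smul, Category.comp_id, smul_smul, mul_comm]

lemma mx_one [HasFiniteBiproducts C] (M₀ : C) (d : ℕ) :
    mx M₀ (1 : Matrix (Fin d) (Fin d) ℚ) = 𝟙 _ := by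
  classical
  refine biproduct.hom_ext' _ _ (fun a => biproduct.hom_ext _ _ (fun b => ?_))
  rw [Category.assoc, ι_mx_π, Category.comp_id]
  by_cases hab : a = b
  · subst hab
    rw [Matrix.one_apply_eq, one_smul, biproduct.ι_π_self]
  · rw [Matrix.one_apply_ne (Ne.symm hab), zero_smul, biproduct.ι_π_ne _ hab]

lemma mx_sum [HasFiniteBiproducts C] (M₀ : C) {d : ℕ} {ι : Type} (s : Finset ι)
    (A : ι → Matrix (Fin d) (Fin d) ℚ) : mx M₀ (∑ i ∈ s, A i) = ∑ i ∈ s, mx M₀ (A i) := by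
  classical
  refine biproduct.hom_ext' _ _ (fun a => biproduct.hom_ext _ _ (fun b => ?_))
  rw [Category.assoc, ι_mx_π, Preadditive.comp_sum, Preadditive.sum_comp, Matrix.sum_apply,
    Finset.sum_smul]
  refine Finset.sum_congr rfl (fun i _ => ?_)
  rw [Category.assoc, ι_mx_π]

/-- **Sharpness.** -/
theorem sharp [HasBinaryBiproducts C] [HasFiniteBiproducts C] {Pr : C → Prop} (hPr : Closed Pr)
    {M₀ : C} (hM₀ : ¬ Pr M₀) {𝓗 : Set (Subgroup G)} (hG : ¬ HasFixed G 𝓗) :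
    ∃ (M : C) (ρ : G →* End M), (∀ H ∈ 𝓗, ∀ P, IsInv ρ H P → 𝟙 P = 0) ∧ ¬ Pr M := by
  classical
  haveI : Nontrivial (MonoidAlgebra ℚ G ⧸ idl 𝓗) :=
    Submodule.Quotient.nontrivial_iff.2 (idl_ne_top hG)
  let b := Module.finBasis ℚ (MonoidAlgebra ℚ G ⧸ idl 𝓗)
  have hd : 0 < Module.finrank ℚ (MonoidAlgebra ℚ G ⧸ idl 𝓗) := Module.finrank_pos
  let A : G →* Matrix (Fin (Module.finrank ℚ (MonoidAlgebra ℚ G ⧸ idl 𝓗)))
      (Fin (Module.finrank ℚ (MonoidAlgebra ℚ G ⧸ idl 𝓗))) ℚ :=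
    (MonoidHomClass.toMonoidHom (LinearMap.toMatrixAlgEquiv b)).comp (quo 𝓗)
  let ρ : G →* End (⨁ fun _ : Fin (Module.finrank ℚ (MonoidAlgebra ℚ G ⧸ idl 𝓗)) => M₀) :=
    { toFun := fun g => mx M₀ (A g)
      map_one' := by
        rw [map_one, mx_one]
        rfl
      map_mul' := fun g g' => by
        rw [map_mul, mx_mul]
        rfl }
  refine ⟨_, ρ, ?_, fun h => ?_⟩
  · rintro H hH P ⟨i, r, hir, hri⟩
    have h1 : ∑ h ∈ Finset.univ.filter (· ∈ H), A h = 0 := by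
      have h2 : ∑ h ∈ Finset.univ.filter (· ∈ H), (quo 𝓗 h : Module.End ℚ _) = 0 := by
        refine LinearMap.ext fun v => ?_
        rw [LinearMap.sum_apply]
        exact quo_sum 𝓗 hH v
      have h3 : ∑ h ∈ Finset.univ.filter (· ∈ H), A h =
          LinearMap.toMatrixAlgEquiv b (∑ h ∈ Finset.univ.filter (· ∈ H), quo 𝓗 h) := by
        rw [map_sum]
        rfl
      rw [h3, h2, map_zero]
    have h2 : ∑ h ∈ Finset.univ.filter (· ∈ H), (ρ h : (⨁ fun _ : Fin (Module.finrank ℚ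
        (MonoidAlgebra ℚ G ⧸ idl 𝓗)) => M₀) ⟶ _) = 0 := by
      have h3 := mx_sum M₀ (Finset.univ.filter (· ∈ H)) (fun h => A h)
      rw [h1] at h3
      have h4 : mx M₀ (0 : Matrix (Fin (Module.finrank ℚ (MonoidAlgebra ℚ G ⧸ idl 𝓗))) _ ℚ) = 0 := by
        unfold mx
        simp
      rw [h4] at h3
      exact h3.symm
    rw [h2, smul_zero] at hri
    calc 𝟙 P = (i ≫ r) ≫ (i ≫ r) := by rw [hir, Category.comp_id]
      _ = i ≫ (r ≫ i) ≫ r := by simp only [Category.assoc]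
      _ = 0 := by rw [hri, zero_comp, comp_zero]
  · apply hM₀
    refine hPr.summand _ M₀ (biproduct.ι (fun _ : Fin _ => M₀) ⟨0, hd⟩)
      (biproduct.π (fun _ : Fin _ => M₀) ⟨0, hd⟩) ?_ h
    rw [biproduct.ι_π_self]

end

end Pool.Agent.V8H93.QI
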