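import Mathlib

/-!
# Groups for which every module has a vector fixed by a subgroup of a given family
-/

set_option autoImplicit false
set_option linter.style.haveILetI false

open scoped Pointwise

namespace Pool.Agent.V8H93.QI

/-- Every nonzero representation of `G` over `ℚ` has a nonzero vector fixed by a member of `𝓗`. -/
def HasFixed (G : Type) [Group G] (𝓗 : Set (Subgroup G)) : Prop :=
  ∀ (V : Type) [AddCommGroup V] [Module ℚ V] (π : Representation ℚ G V), Nontrivial V →
    ∃ H ∈ 𝓗, ∃ v : V, v ≠ 0 ∧ ∀ h ∈ H, π h v = v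

/-- The normal subgroup generated by the commutators `g t g⁻¹ t⁻¹`. -/
def CommWith {G : Type} [Group G] (t : G) : Subgroup G :=
  Subgroup.normalClosure {x | ∃ g : G, x = g * t * g⁻¹ * t⁻¹}

instance {G : Type} [Group G] (t : G) : (CommWith t).Normal := Subgroup.normalClosure_normal

lemma HasFixed.mono {G : Type} [Group G] {𝓗 𝓗' : Set (Subgroup G)} (h : HasFixed G 𝓗)
    (hs : 𝓗 ⊆ 𝓗') : HasFixed G 𝓗' := by
  intro V _ _ π hV
  obtain ⟨H, hH, v, hv, hf⟩ := h V π hV
  exact ⟨H, hs hH, v, hv, hf⟩

/-! ### Involutions -/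

section

variable {G : Type} [Group G]

lemma fixed_of_comm {t : G} (ht : t * t = 1) (hc : t ∈ CommWith t) :
    HasFixed G {Subgroup.zpowers t} := by
  intro V _ _ π hV
  by_contra hcon
  push Not at hcon
  have h1 : ∀ v : V, π t v = -v := by
    intro v
    by_contra hne
    have h2 : v + π t v ≠ 0 := by
      intro h0
      exact hne (eq_neg_of_add_eq_zero_right h0)
    obtain ⟨h, hh, hf⟩ := hcon _ rfl _ h2
    apply hf
    have h3 : π t (v + π t v) = v + π t v := by
      rw [map_add, ← Module.End.mul_apply, ← map_mul, ht, map_one, Module.End.one_apply, add_comm]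
    obtain ⟨n, rfl⟩ := Subgroup.mem_zpowers_iff.1 hh
    have h4 : ∀ n : ℕ, π (t ^ n) (v + π t v) = v + π t v := by
      intro n
      induction n with
      | zero => rw [pow_zero, map_one, Module.End.one_apply]
      | succ n ih => rw [pow_succ, map_mul, Module.End.mul_apply, h3, ih]
    have h5 : t⁻¹ = t := inv_eq_of_mul_eq_one_left ht
    rcases n with n | n
    · rw [Int.ofNat_eq_natCast, zpow_natCast]
      exact h4 n
    · rw [zpow_negSucc, ← inv_pow, h5]
      exact h4 (n + 1)
  have h2 : CommWith t ≤ MonoidHom.ker (π : G →* Module.End ℚ V) := by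
    refine Subgroup.normalClosure_le_normal ?_
    rintro _ ⟨g, rfl⟩
    rw [SetLike.mem_coe, MonoidHom.mem_ker]
    have h5 : t⁻¹ = t := inv_eq_of_mul_eq_one_left ht
    ext v
    rw [h5, map_mul, map_mul, map_mul, Module.End.mul_apply, Module.End.mul_apply,
      Module.End.mul_apply]
    simp only [h1, map_neg, neg_neg]
    rw [← Module.End.mul_apply, ← map_mul, mul_inv_cancel, map_one]
  have h3 : π t = 1 := h2 hc
  obtain ⟨v, hv⟩ := exists_ne (0 : V)
  have h4 := h1 v
  rw [h3, Module.End.one_apply] at h4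
  have h5 : (2 : ℚ) • v = 0 := by
    rw [two_smul]
    nth_rewrite 1 [h4]
    rw [neg_add_cancel]
  exact hv ((smul_eq_zero.1 h5).resolve_left two_ne_zero)

/-- the functions on `G / N` with `f (x t) = - f x` -/
def oddFun (N : Subgroup G) [N.Normal] (t : G) : Submodule ℚ (G ⧸ N → ℚ) where
  carrier := {f | ∀ x, f (x * (t : G ⧸ N)) = -f x}
  add_mem' := by
    intro a b ha hb x
    simp only [Pi.add_apply, ha x, hb x]
    ring
  zero_mem' := by
    intro x
    simp
  smul_mem' := by
    intro c a ha x
    simp only [Pi.smul_apply, ha x, smul_neg]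

/-- the action on these functions -/
def oddRep (N : Subgroup G) [N.Normal] (t : G) : Representation ℚ G (oddFun N t) where
  toFun g :=
    { toFun := fun f => ⟨fun x => f.1 ((g : G ⧸ N)⁻¹ * x), fun x => by
        change f.1 ((g : G ⧸ N)⁻¹ * (x * (t : G ⧸ N))) = -f.1 ((g : G ⧸ N)⁻¹ * x)
        rw [← mul_assoc]
        exact f.2 _⟩
      map_add' := fun f f' => rfl
      map_smul' := fun c f => rfl }
  map_one' := by
    ext f x
    simp
  map_mul' g g' := by
    ext f x
    simp [mul_assoc]

lemma comm_of_fixed {t : G} (ht : t * t = 1) (h : HasFixed G {Subgroup.zpowers t}) :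
    t ∈ CommWith t := by
  classical
  by_contra hcon
  have hne : (t : G ⧸ CommWith t) ≠ 1 := by
    rwa [Ne, QuotientGroup.eq_one_iff]
  have htt : (t : G ⧸ CommWith t) * t = 1 := by
    rw [← QuotientGroup.mk_mul, ht, QuotientGroup.mk_one]
  have hcen : ∀ x : G ⧸ CommWith t, (t : G ⧸ CommWith t) * x = x * t := by
    intro x
    obtain ⟨g, rfl⟩ := QuotientGroup.mk_surjective x
    rw [← QuotientGroup.mk_mul, ← QuotientGroup.mk_mul]
    have h1 : g * t * g⁻¹ * t⁻¹ ∈ CommWith t := Subgroup.subset_normalClosure ⟨g, rfl⟩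
    have h2 : ((g * t * g⁻¹ * t⁻¹ : G) : G ⧸ CommWith t) = 1 := (QuotientGroup.eq_one_iff _).2 h1
    have h3 : ((g * t : G) : G ⧸ CommWith t) = ((g * t * g⁻¹ * t⁻¹ : G) : G ⧸ CommWith t) *
        ((t * g : G) : G ⧸ CommWith t) := by
      rw [← QuotientGroup.mk_mul]
      congr 1
      group
    rw [h3, h2, one_mul]
  let f0 : oddFun (CommWith t) t := ⟨fun x => (if x = 1 then 1 else 0) - (if x = (t : G ⧸ CommWith t)
    then 1 else 0), fun x => by
      have e1 : x * (t : G ⧸ CommWith t) = 1 ↔ x = (t : G ⧸ CommWith t) := by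
        constructor
        · intro h
          calc x = x * ((t : G ⧸ CommWith t) * t) := by rw [htt, mul_one]
            _ = t := by rw [← mul_assoc, h, one_mul]
        · rintro rfl
          exact htt
      have e2 : x * (t : G ⧸ CommWith t) = (t : G ⧸ CommWith t) ↔ x = 1 := by
        constructor
        · intro h
          exact mul_eq_right.1 h
        · rintro rfl
          exact one_mul _
      simp only [e1, e2]
      ring⟩
  have hf0 : f0 ≠ 0 := by
    intro h0
    have h1 : f0.1 1 = 0 := by rw [h0]; rfl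
    have h2 : f0.1 1 = (if (1 : G ⧸ CommWith t) = 1 then 1 else 0) -
      (if (1 : G ⧸ CommWith t) = (t : G ⧸ CommWith t) then 1 else 0) := rfl
    rw [h2, if_pos rfl, if_neg (Ne.symm hne)] at h1
    norm_num at h1
  haveI : Nontrivial (oddFun (CommWith t) t) := ⟨f0, 0, hf0⟩
  obtain ⟨H, hH, v, hv, hfix⟩ := h (oddFun (CommWith t) t) (oddRep (CommWith t) t) inferInstance
  rw [Set.mem_singleton_iff] at hH
  subst hH
  have h1 := hfix t (Subgroup.mem_zpowers t)
  apply hv
  ext x
  have h2 : v.1 ((t : G ⧸ CommWith t)⁻¹ * x) = v.1 x :=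
    congrArg (fun f : oddFun (CommWith t) t => f.1 x) h1
  have h3 : (t : G ⧸ CommWith t)⁻¹ = t := inv_eq_of_mul_eq_one_left htt
  rw [h3, hcen, v.2 x] at h2
  have h4 : v.1 x = 0 := by linarith
  exact h4

/-- The criterion for a single involution. -/
theorem involution_iff {t : G} (ht : t * t = 1) :
    HasFixed G {Subgroup.zpowers t} ↔ t ∈ CommWith t :=
  ⟨comm_of_fixed ht, fixed_of_comm ht⟩

lemma comm_map {K : Type} [Group K] (f : K →* G) {t : K} (h : t ∈ CommWith t) :
    f t ∈ CommWith (f t) := by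
  have h1 : CommWith t ≤ (CommWith (f t)).comap f := by
    refine Subgroup.normalClosure_le_normal ?_
    rintro _ ⟨g, rfl⟩
    rw [SetLike.mem_coe, Subgroup.mem_comap]
    refine Subgroup.subset_normalClosure ⟨f g, ?_⟩
    simp
  exact h1 h

/-- Involutions in nonabelian simple groups. -/
lemma comm_simple [IsSimpleGroup G] (hG : ∃ a b : G, a * b ≠ b * a) {t : G} (ht : t ≠ 1) :
    t ∈ CommWith t := by
  rcases IsSimpleGroup.eq_bot_or_eq_top_of_normal (CommWith t) inferInstance with h | h
  · exfalso
    have h1 : t ∈ Subgroup.center G := by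
      rw [Subgroup.mem_center_iff]
      intro g
      have h2 : g * t * g⁻¹ * t⁻¹ ∈ CommWith t := Subgroup.subset_normalClosure ⟨g, rfl⟩
      rw [h, Subgroup.mem_bot, mul_inv_eq_one, mul_inv_eq_iff_eq_mul] at h2
      exact h2
    rcases IsSimpleGroup.eq_bot_or_eq_top_of_normal (Subgroup.center G) inferInstance with h3 | h3
    · rw [h3, Subgroup.mem_bot] at h1
      exact ht h1
    · obtain ⟨a, b, hab⟩ := hG
      have h4 : b ∈ Subgroup.center G := by rw [h3]; trivial
      exact hab ((Subgroup.mem_center_iff.1 h4) a)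
  · rw [h]
    trivial

/-- The double transposition in the alternating group of four letters. -/
def dbl : alternatingGroup (Fin 4) :=
  ⟨Equiv.swap 0 1 * Equiv.swap 2 3, by
    rw [Equiv.Perm.mem_alternatingGroup]
    decide⟩

lemma comm_dbl : dbl ∈ CommWith dbl := by
  have h1 : ∃ g x : alternatingGroup (Fin 4), x * (g * dbl * g⁻¹ * dbl⁻¹) * x⁻¹ = dbl := by
    refine ⟨⟨Equiv.swap 0 1 * Equiv.swap 1 2, by
      rw [Equiv.Perm.mem_alternatingGroup]
      decide⟩, ⟨Equiv.swap 1 3 * Equiv.swap 3 2, by
      rw [Equiv.Perm.mem_alternatingGroup]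
      decide⟩, Subtype.ext ?_⟩
    change (Equiv.swap 1 3 * Equiv.swap 3 2 : Equiv.Perm (Fin 4)) * ((Equiv.swap 0 1 *
      Equiv.swap 1 2) * (Equiv.swap 0 1 * Equiv.swap 2 3) * (Equiv.swap 0 1 * Equiv.swap 1 2)⁻¹ *
      (Equiv.swap 0 1 * Equiv.swap 2 3)⁻¹) * (Equiv.swap 1 3 * Equiv.swap 3 2)⁻¹ =
      Equiv.swap 0 1 * Equiv.swap 2 3
    decide
  obtain ⟨g, x, h⟩ := h1
  have h2 : g * dbl * g⁻¹ * dbl⁻¹ ∈ CommWith dbl := Subgroup.subset_normalClosure ⟨g, rfl⟩
  have h3 := (inferInstance : (CommWith dbl).Normal).conj_mem _ h2 x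
  rwa [h] at h3

end

/-! ### Noncyclic groups all of whose elements have prime order -/

section

/-- the sum of the elements of a subgroup acts as zero if there are no fixed vectors -/
lemma sum_zero {G V : Type} [Group G] [AddCommGroup V] [Module ℚ V] (π : Representation ℚ G V)
    (H : Subgroup G) [Fintype H] (h : ∀ v : V, (∀ h ∈ H, π h v = v) → v = 0) (v : V) :
    ∑ x : H, π x v = 0 := by
  apply h
  intro y hy
  rw [map_sum]
  have h1 : ∀ x : H, π y (π x v) = π (((⟨y, hy⟩ : H) * x : H) : G) v := by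
    intro x
    rw [Subgroup.coe_mul, map_mul, Module.End.mul_apply]
  simp only [h1]
  exact Equiv.sum_comp (Equiv.mulLeft (⟨y, hy⟩ : H)) (fun x : H => π (x : G) v)

lemma fixed_partition (K : Type) [Group K] [Finite K] (hc : ¬ IsCyclic K)
    (hp : ∀ k : K, k ≠ 1 → (orderOf k).Prime) :
    HasFixed K {H | (Nat.card H).Prime} := by
  classical
  intro V _ _ π hV
  by_contra hcon
  push Not at hcon
  haveI : Fintype K := Fintype.ofFinite K
  have h0 : ∀ H : Subgroup K, (Nat.card H).Prime → ∀ v : V, (∀ h ∈ H, π h v = v) → v = 0 := by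
    intro H hH v hv
    by_contra hne
    obtain ⟨h, hh, hf⟩ := hcon H hH v hne
    exact hf (hv h hh)
  obtain ⟨v, hv⟩ := exists_ne (0 : V)
  -- for `k ≠ 1` the nontrivial elements of the group generated by `k` sum up to `-1`
  have h1 : ∀ k : K, k ≠ 1 →
      ∑ x ∈ Finset.univ.filter (fun x : K => x ≠ 1 ∧ Subgroup.zpowers x = Subgroup.zpowers k),
        π x v = -v := by
    intro k hk
    have hpk : (Nat.card (Subgroup.zpowers k)).Prime := by
      rw [Nat.card_zpowers]
      exact hp k hk
    have h2 := sum_zero π (Subgroup.zpowers k) (h0 _ hpk) v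
    have h3 : ∑ x : Subgroup.zpowers k, π (x : K) v =
        ∑ x ∈ Finset.univ.filter (fun x : K => x ∈ Subgroup.zpowers k), π x v := by
      rw [Finset.sum_subtype _ (p := fun x : K => x ∈ Subgroup.zpowers k)]
      intro x
      simp
    have h4 : Finset.univ.filter (fun x : K => x ∈ Subgroup.zpowers k) =
        insert 1 (Finset.univ.filter (fun x : K => x ≠ 1 ∧
          Subgroup.zpowers x = Subgroup.zpowers k)) := by
      ext x
      simp only [Finset.mem_filter, Finset.mem_univ, true_and, Finset.mem_insert]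
      constructor
      · intro hx
        by_cases hx1 : x = 1
        · exact Or.inl hx1
        · right
          refine ⟨hx1, ?_⟩
          have h5 : Subgroup.zpowers x ≤ Subgroup.zpowers k := by
            rw [Subgroup.zpowers_le]
            exact hx
          refine Subgroup.eq_of_le_of_card_ge h5 ?_
          have h6 : Nat.card (Subgroup.zpowers x) ∣ Nat.card (Subgroup.zpowers k) :=
            Subgroup.card_dvd_of_le h5
          rcases (Nat.dvd_prime hpk).1 h6 with h7 | h7
          · exfalso
            rw [Nat.card_zpowers, orderOf_eq_one_iff] at h7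
            exact hx1 h7
          · rw [h7]
      · rintro (rfl | ⟨-, hx⟩)
        · exact one_mem _
        · rw [← hx]
          exact Subgroup.mem_zpowers x
    rw [h3, h4, Finset.sum_insert (by simp), map_one, Module.End.one_apply] at h2
    exact eq_neg_of_add_eq_zero_right h2
  -- some element is not the identity
  have hnt : ∃ k : K, k ≠ 1 := by
    by_contra hall
    push Not at hall
    haveI : Subsingleton K := ⟨fun a b => by rw [hall a, hall b]⟩
    exact hc inferInstance
  obtain ⟨k0, hk0⟩ := hnt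
  -- the sum over the whole group is zero
  have h2 : ∑ x : K, π x v = 0 := by
    have hpk : (Nat.card (Subgroup.zpowers k0)).Prime := by
      rw [Nat.card_zpowers]
      exact hp k0 hk0
    apply h0 _ hpk
    intro y _
    rw [map_sum]
    have h1 : ∀ x : K, π y (π x v) = π (y * x) v := by
      intro x
      rw [map_mul, Module.End.mul_apply]
    simp only [h1]
    exact Equiv.sum_comp (Equiv.mulLeft y) (fun x : K => π x v)
  let S : Finset (Subgroup K) := (Finset.univ.filter (fun x : K => x ≠ 1)).image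
    fun x => Subgroup.zpowers x
  have h3 : ∑ x ∈ Finset.univ.filter (fun x : K => x ≠ 1), π x v = ∑ _H ∈ S, -v := by
    have h4 : ∀ x ∈ Finset.univ.filter (fun x : K => x ≠ 1), Subgroup.zpowers x ∈ S :=
      fun x hx => Finset.mem_image_of_mem _ hx
    rw [← Finset.sum_fiberwise_of_maps_to h4]
    refine Finset.sum_congr rfl (fun H hH => ?_)
    obtain ⟨k, hk, rfl⟩ := Finset.mem_image.1 hH
    rw [Finset.mem_filter] at hk
    rw [Finset.filter_filter]
    exact h1 k hk.2
  have h4 : (Finset.univ : Finset K) = insert 1 (Finset.univ.filter (fun x : K => x ≠ 1)) := by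
    ext x
    simp [em]
  rw [h4, Finset.sum_insert (by simp), h3, map_one, Module.End.one_apply, Finset.sum_const,
    smul_neg, ← Nat.cast_smul_eq_nsmul ℚ] at h2
  have h5 : (1 - (S.card : ℚ)) • v = 0 := by
    rw [sub_smul, one_smul, sub_eq_add_neg]
    exact h2
  have h6 : (S.card : ℚ) = 1 := by
    have h7 := (smul_eq_zero.1 h5).resolve_right hv
    linarith
  have h7 : S.card = 1 := by exact_mod_cast h6
  obtain ⟨H, hH⟩ := Finset.card_eq_one.1 h7
  apply hc
  refine ⟨k0, fun x => ?_⟩
  change x ∈ Subgroup.zpowers k0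
  by_cases hx : x = 1
  · rw [hx]
    exact one_mem _
  · have e1 : Subgroup.zpowers x ∈ S := Finset.mem_image_of_mem _ (by simpa using hx)
    have e2 : Subgroup.zpowers k0 ∈ S := Finset.mem_image_of_mem _ (by simpa using hk0)
    rw [hH, Finset.mem_singleton] at e1 e2
    rw [e2, ← e1]
    exact Subgroup.mem_zpowers x

/-- A noncyclic subgroup all of whose elements have prime order. -/
theorem fixed_prime {G : Type} [Group G] (K : Subgroup G) [Finite K] (hc : ¬ IsCyclic K)
    (hp : ∀ k ∈ K, k ≠ 1 → (orderOf k).Prime) :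
    HasFixed G {H | H ≤ K ∧ (Nat.card H).Prime} := by
  intro V _ _ π hV
  obtain ⟨H, hH, v, hv, hf⟩ := fixed_partition K hc (fun k hk => by
    have h1 := hp k k.2 (fun h => hk (Subtype.ext h))
    rwa [Subgroup.orderOf_coe] at h1) V (π.comp K.subtype) hV
  refine ⟨H.map K.subtype, ⟨Subgroup.map_subtype_le H, ?_⟩, v, hv, ?_⟩
  · rw [Subgroup.card_map_of_injective K.subtype_injective]
    exact hH
  · rintro _ ⟨h, hh, rfl⟩
    exact hf h hh

/-- Noncyclic groups of order `p q`. -/
lemma prime_of_card {K : Type} [Group K] [Finite K] {p q : ℕ} (hp : p.Prime) (hq : q.Prime)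
    (hK : Nat.card K = p * q) (hc : ¬ IsCyclic K) (k : K) (hk : k ≠ 1) : (orderOf k).Prime := by
  have h1 : orderOf k ∣ p * q := hK ▸ orderOf_dvd_natCard k
  have h2 : orderOf k ≠ p * q := fun h => hc (isCyclic_of_orderOf_eq_card k (h.trans hK.symm))
  have h3 : orderOf k ≠ 1 := fun h => hk (orderOf_eq_one_iff.1 h)
  obtain ⟨a, b, ha, hb, hab⟩ := Nat.dvd_mul.1 h1
  rcases (Nat.dvd_prime hp).1 ha with rfl | rfl
  · rcases (Nat.dvd_prime hq).1 hb with rfl | rfl
    · exact absurd hab.symm (by simpa using h3)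
    · rw [← hab, one_mul]
      exact hq
  · rcases (Nat.dvd_prime hq).1 hb with rfl | rfl
    · rw [← hab, mul_one]
      exact hp
    · exact absurd hab.symm h2

end

end Pool.Agent.V8H93.QI
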