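import Pool.Agent.V8H87.DK.Wr
import Pool.Agent.V8H87.GG.Kim

/-!
# Direct sums of Kimura finite-dimensional objects
-/

set_option autoImplicit false
set_option linter.unusedSectionVars false

open CategoryTheory Limits MonoidalCategory Module Equiv
open Pool.Agent.Y112.SR Pool.Agent.Y112.KD Pool.Agent.N64.AF Pool.Agent.R905
open Pool.Agent.V8H87.GG Pool.Agent.V8H87.DK

namespace Pool.Agent.V8H93.QI

universe v u w

section

variable {C : Type u} [Category.{v} C] [MonoidalCategory C] [SymmetricCategory C]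
  [Preadditive C] [Linear ℚ C] [MonoidalPreadditive C] [MonoidalLinear ℚ C]

lemma powerVanishes_iff {η : ℚ} (hη : η * η = 1) {M : C} (e : M ⟶ M) (n : ℕ) :
    PowerVanishes η e n ↔ tpm e n ≫ asym η M n = 0 := by
  constructor
  · intro h
    exact h _ _ (fun s hs => (swap_asym hη M hs).1)
  · intro h Z g hg
    rw [← asym_comp hη g hg, ← Category.assoc, h, zero_comp]

lemma tpm_comp {X Y Z : C} (f : X ⟶ Y) (g : Y ⟶ Z) : ∀ n : ℕ, tpm (f ≫ g) n = tpm f n ≫ tpm g n
  | 0 => (Category.id_comp _).symm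
  | n + 1 => by
    change tpm (f ≫ g) n ⊗ₘ (f ≫ g) = (tpm f n ⊗ₘ f) ≫ (tpm g n ⊗ₘ g)
    rw [tensorHom_comp_tensorHom, tpm_comp f g n]

/-- Vanishing of powers of a summand passes to a larger object. -/
lemma powerVanishes_map {η : ℚ} (hη : η * η = 1) {M T : C} {e : M ⟶ M} {n : ℕ}
    (h : PowerVanishes η e n) (i : M ⟶ T) (r : T ⟶ M) : PowerVanishes η (r ≫ e ≫ i) n := by
  rw [powerVanishes_iff hη] at h ⊢
  rw [tpm_comp, tpm_comp, Category.assoc, Category.assoc, asym_nat, ← Category.assoc (tpm e n), h,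
    zero_comp, comp_zero]

variable [RightRigidCategory C] {K : Type w} [Field K] (R : SuperRealisation C K) (hU : UnitQ C)

lemma H_mul_asym (T : C) {η : ℚ} (hη : η * η = 1) {p : End T} {n : ℕ}
    (hp : tpm (p : T ⟶ T) n ≫ asym η T n = 0) : ∀ (j : ℕ) (y : Fin (n + j) → End T),
      (∀ i, j ≤ i.val → y i = p) →
      ((tower R hU T).H (n + j) y : tp T (n + j) ⟶ tp T (n + j)) ≫ asym η T (n + j) = 0
  | 0, y, hy => by
    have h1 : y = fun _ => p := funext fun i => hy i (Nat.zero_le _)
    rw [h1]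
    change ((tower R hU T).H n (fun _ => p) : tp T n ⟶ tp T n) ≫ asym η T n = 0
    rw [← tpm_eq_H R hU T p n]
    exact hp
  | j + 1, y, hy => by
    have ih := H_mul_asym T hη hp j (y ∘ Fin.succ) (fun i hi => hy i.succ (by
      rw [Fin.val_succ]; omega))
    have h1 : ((tower R hU T).H (n + j + 1) y : tp T (n + j + 1) ⟶ tp T (n + j + 1)) =
      ((tp T (n + j) ◁ (y 0 : T ⟶ T)) ≫
        (((tower R hU T).H (n + j) (y ∘ Fin.succ) : tp T (n + j) ⟶ tp T (n + j)) ▷ T) :
          tp T (n + j + 1) ⟶ _) := rfl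
    change ((tower R hU T).H (n + j + 1) y : tp T (n + j + 1) ⟶ tp T (n + j + 1)) ≫
      asym η T (n + j + 1) = 0
    rw [h1, ← (absorb hη T (n + j)).1, Category.assoc, ← Category.assoc (_ ▷ T),
      ← comp_whiskerRight, ih]
    simp

/-- The characters of the symmetric groups belonging to `η`. -/
lemma exists_char {η : ℚ} (hη : η = 1 ∨ η = -1) (n : ℕ) : ∃ χ : Perm (Fin n) →* ℚ,
    ∀ a b : Fin n, a ≠ b → χ (swap a b) = η := by
  rcases hη with rfl | rfl
  · exact ⟨1, fun _ _ _ => rfl⟩
  · exact ⟨sgH n, fun a b hab => sg_swap hab⟩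

lemma char_ne {n : ℕ} (χ : Perm (Fin n) →* ℚ) (s : Perm (Fin n)) : χ s ≠ 0 := by
  intro h
  have h1 := map_mul χ s s⁻¹
  rw [h, zero_mul, mul_inv_cancel, map_one] at h1
  exact one_ne_zero h1

/-- Permutations of the factors do not matter. -/
lemma H_perm (T : C) {η : ℚ} (hη : η = 1 ∨ η = -1) {k : ℕ} (y : Fin k → End T) (s : Perm (Fin k))
    (h : ((tower R hU T).H k (y ∘ s) : tp T k ⟶ tp T k) ≫ asym η T k = 0) :
    ((tower R hU T).H k y : tp T k ⟶ tp T k) ≫ asym η T k = 0 := by
  have hη2 : η * η = 1 := by rcases hη with rfl | rfl <;> norm_num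
  obtain ⟨χ, hχ⟩ := exists_char hη k
  have h1 := pm_comp R hU χ hχ (asym η T k) (fun s hs => (swap_asym hη2 T hs).1) s⁻¹
  have h2 : (tower R hU T).th k s⁻¹ * (tower R hU T).H k y =
      (tower R hU T).H k (y ∘ s) * (tower R hU T).th k s⁻¹ := by
    rw [TT.th_H, inv_inv]
  -- as morphisms: `H y ≫ th s⁻¹ = th s⁻¹ ≫ H (y ∘ s)`
  have h3 : ((tower R hU T).H k y : tp T k ⟶ tp T k) ≫
      (pm R hU T k s⁻¹ : tp T k ⟶ tp T k) =
      (pm R hU T k s⁻¹ : tp T k ⟶ tp T k) ≫ ((tower R hU T).H k (y ∘ s) : tp T k ⟶ tp T k) := h2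
  have h4 : χ s⁻¹ • (((tower R hU T).H k y : tp T k ⟶ tp T k) ≫ asym η T k) = 0 := by
    rw [← Linear.comp_smul, ← h1, ← Category.assoc, h3, Category.assoc, h, comp_zero]
  exact (smul_eq_zero.1 h4).resolve_left (char_ne χ _)

/-- A permutation which moves the last `n` places into a given set with at least `n` elements. -/
lemma exists_sort {n j : ℕ} (S : Finset (Fin (n + j))) (hS : n ≤ S.card) :
    ∃ s : Perm (Fin (n + j)), ∀ i, j ≤ i.val → s i ∈ S := by
  obtain ⟨S', hS', hc⟩ := Finset.exists_subset_card_eq hS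
  have h1 : Fintype.card {i : Fin (n + j) // j ≤ i.val} = Fintype.card {i // i ∈ S'} := by
    rw [Fintype.card_coe, hc, Fintype.card_subtype]
    have h2 : (Finset.univ.filter fun i : Fin (n + j) => j ≤ i.val) =
        Finset.univ \ (Finset.univ.filter fun i : Fin (n + j) => i.val < j) := by
      ext i
      simp
    rw [h2, Finset.card_sdiff_of_subset (Finset.subset_univ _), Finset.card_univ, Fintype.card_fin]
    have h3 : (Finset.univ.filter fun i : Fin (n + j) => i.val < j).card = j := by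
      rw [Fin.card_filter_val_lt]
      omega
    omega
  classical
  let e := Fintype.equivOfCardEq h1
  refine ⟨e.extendSubtype, fun i hi => ?_⟩
  exact hS' (e.extendSubtype_mem i hi)

include R hU in
/-- **Sums.** -/
lemma powerVanishes_add (T : C) {η : ℚ} (hη : η = 1 ∨ η = -1) {p q : T ⟶ T} {n m : ℕ}
    (hp : PowerVanishes η p n) (hq : PowerVanishes η q m) : PowerVanishes η (p + q) (n + m) := by
  have hη2 : η * η = 1 := by rcases hη with rfl | rfl <;> norm_num
  rw [powerVanishes_iff hη2] at hp hq ⊢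
  let f : Bool → End T := fun b => if b then p else q
  have h0 : (p + q : T ⟶ T) = ((∑ b, f b : End T) : T ⟶ T) := by
    simp [f]
  rw [h0, tpm_eq_H R hU T (∑ b, f b) (n + m)]
  have h1 := H_sum (tower R hU T) (n := n + m) (fun _ => f)
  have h2 : ((tower R hU T).H (n + m) (fun _ => ∑ b, f b) : tp T (n + m) ⟶ tp T (n + m)) =
      ∑ w : Fin (n + m) → Bool,
        ((tower R hU T).H (n + m) (fun i => f (w i)) : tp T (n + m) ⟶ tp T (n + m)) := h1
  rw [h2, Preadditive.sum_comp]
  refine Finset.sum_eq_zero (fun w _ => ?_)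
  by_cases hw : n ≤ (Finset.univ.filter fun i => w i = true).card
  · obtain ⟨s, hs⟩ := exists_sort (n := n) (j := m) _ hw
    refine H_perm R hU T hη _ s ?_
    refine H_mul_asym R hU T hη2 hp m _ (fun i hi => ?_)
    have h3 := hs i hi
    rw [Finset.mem_filter] at h3
    simp [f, h3.2]
  · have hw' : m ≤ (Finset.univ.filter fun i => w i = false).card := by
      have h3 := Finset.card_filter_add_card_filter_not (s := (Finset.univ : Finset (Fin (n + m))))
        (fun i => w i = true)
      rw [Finset.card_univ, Fintype.card_fin] at h3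
      have h4 : (Finset.univ.filter fun i => ¬ w i = true) =
          (Finset.univ.filter fun i => w i = false) := by
        ext i
        simp
      rw [h4] at h3
      omega
    have hgen : ∀ (N : ℕ) (hN : N = n + m) (w : Fin N → Bool),
        m ≤ (Finset.univ.filter fun i => w i = false).card → N = m + n →
        ((tower R hU T).H N (fun i => f (w i)) : tp T N ⟶ tp T N) ≫ asym η T N = 0 := by
      intro N hN w hw' hN'
      subst hN'
      obtain ⟨s, hs⟩ := exists_sort (n := m) (j := n) _ hw'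
      refine H_perm R hU T hη _ s ?_
      refine H_mul_asym R hU T hη2 hq n _ (fun i hi => ?_)
      have h3 := hs i hi
      rw [Finset.mem_filter] at h3
      simp [f, h3.2]
    exact hgen (n + m) rfl w hw' (Nat.add_comm n m)

include R hU in
/-- **Kimura's theorem on direct sums.** -/
theorem kimura_sum [HasBinaryBiproducts C] {M N : C} (hM : IsKimuraFinite M)
    (hN : IsKimuraFinite N) : IsKimuraFinite (M ⊞ N) := by
  obtain ⟨e, he, ⟨n, hn⟩, m, hm⟩ := hM
  obtain ⟨f, hf, ⟨n', hn'⟩, m', hm'⟩ := hN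
  refine ⟨biprod.fst ≫ e ≫ biprod.inl + biprod.snd ≫ f ≫ biprod.inr, ?_, ⟨n + n', ?_⟩,
    m + m', ?_⟩
  · simp only [Preadditive.add_comp, Preadditive.comp_add, Category.assoc]
    simp only [BinaryBicone.inl_fst_assoc, BinaryBicone.inr_fst_assoc, BinaryBicone.inl_snd_assoc,
      BinaryBicone.inr_snd_assoc, zero_comp, comp_zero, add_zero, zero_add]
    rw [← Category.assoc e, he, ← Category.assoc f, hf]
  · exact powerVanishes_add R hU _ (Or.inr rfl)
      (powerVanishes_map (by norm_num) hn _ _) (powerVanishes_map (by norm_num) hn' _ _)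
  · have h1 : 𝟙 (M ⊞ N) - (biprod.fst ≫ e ≫ biprod.inl + biprod.snd ≫ f ≫ biprod.inr) =
        biprod.fst ≫ (𝟙 M - e) ≫ biprod.inl + biprod.snd ≫ (𝟙 N - f) ≫ biprod.inr := by
      rw [← biprod.total]
      simp only [Preadditive.sub_comp, Preadditive.comp_sub, Category.id_comp]
      abel
    rw [h1]
    exact powerVanishes_add R hU _ (Or.inl rfl)
      (powerVanishes_map (by norm_num) hm _ _) (powerVanishes_map (by norm_num) hm' _ _)

end

end Pool.Agent.V8H93.QI
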